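import Pool.Agent.Helper49.TP.StG

/-! Project TP (MP_953b28_co, owner helper49), module FC2: the contradiction. -/

set_option autoImplicit false

namespace Pool.Agent.Helper7.TP

open Finset Pool.Agent.Helper49.TP Pool.Agent.Helper93.IA

private lemma cardbad {ι : Type} [Fintype ι] (y : ι → ℝ) (Λ S : ℝ) (hΛ : 0 < Λ)
    (hy : ∀ i, 0 ≤ y i) (hS : ∑ i, y i ≤ S) :
    ((univ.filter fun i => y i = Λ).card : ℝ) ≤ S / Λ := by
  rw [le_div_iff₀ hΛ]
  calc ((univ.filter fun i => y i = Λ).card : ℝ) * Λ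
      = ∑ i ∈ univ.filter fun i => y i = Λ, y i := by
        rw [sum_congr rfl fun i hi => (mem_filter.1 hi).2, sum_const, nsmul_eq_mul]
    _ ≤ ∑ i, y i := sum_le_sum_of_subset_of_nonneg (filter_subset _ _) fun i _ _ => hy i
    _ ≤ S := hS

/-- the group of the triples which preserve the three functions -/
private def grp {n : ℕ} (FA FB FC : Fin n → Fin n → ℝ) : Subgroup (P3 n) where
  carrier := {h | Pr2 FA FB FC h}
  mul_mem' := by
    rintro h k ⟨h1, h2, h3⟩ ⟨k1, k2, k3⟩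
    refine ⟨fun r c => ?_, fun c s => ?_, fun s r => ?_⟩
    · show FA (h.1 (k.1 r)) (h.2.1 (k.2.1 c)) = FA r c
      rw [h1, k1]
    · show FB (h.2.1 (k.2.1 c)) (h.2.2 (k.2.2 s)) = FB c s
      rw [h2, k2]
    · show FC (h.2.2 (k.2.2 s)) (h.1 (k.1 r)) = FC s r
      rw [h3, k3]
  one_mem' := ⟨fun _ _ => rfl, fun _ _ => rfl, fun _ _ => rfl⟩
  inv_mem' := by
    rintro h ⟨h1, h2, h3⟩
    refine ⟨fun r c => ?_, fun c s => ?_, fun s r => ?_⟩
    · have := h1 (h.1.symm r) (h.2.1.symm c)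
      rw [Equiv.apply_symm_apply, Equiv.apply_symm_apply] at this
      exact this.symm
    · have := h2 (h.2.1.symm c) (h.2.2.symm s)
      rw [Equiv.apply_symm_apply, Equiv.apply_symm_apply] at this
      exact this.symm
    · have := h3 (h.2.2.symm s) (h.1.symm r)
      rw [Equiv.apply_symm_apply, Equiv.apply_symm_apply] at this
      exact this.symm

/-- step (1) of the proof -/
private lemma step1 {n : ℕ} {Λ t : ℝ} {FA FB FC : Fin n → Fin n → ℝ}
    {x : Fin n → Fin n → Fin n → ℝ} {α β γ : Fin n → Fin n → ℝ} (hn : 0 < n) (ht1 : t < 1)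
    (hx : Sol Λ t FA FB FC x) (hs : Sgn Λ x α β γ) (hD : Dv FA FB FC α β γ < 0) :
    ∑ r, ∑ c, FA r c * α r c + ∑ c, ∑ s, FB c s * β c s + ∑ s, ∑ r, FC s r * γ s r < 0 := by
  obtain ⟨hx0, hxA, hxB, hxC⟩ := hx
  have h0 : ∑ r, ∑ c, ∑ s, x r c s * (α r c + β c s + γ s r) ≤ 0 := by
    refine sum_nonpos fun r _ => sum_nonpos fun c _ => sum_nonpos fun s _ => ?_
    rcases (hx0 r c s).1.eq_or_lt with h | h
    · rw [← h, zero_mul]
    · exact mul_nonpos_of_nonneg_of_nonpos h.le ((hs r c s).2 h)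
  have e0 : ∑ r, ∑ c, ∑ s, x r c s * (α r c + β c s + γ s r) =
      ∑ r, ∑ c, (n * (1 + t * (FA r c - 1))) * α r c +
      ∑ c, ∑ s, (n * (1 + t * (FB c s - 1))) * β c s +
      ∑ s, ∑ r, (n * (1 + t * (FC s r - 1))) * γ s r := by
    simp only [mul_add, sum_add_distrib]
    have e1 : ∑ r, ∑ c, ∑ s, x r c s * α r c =
        ∑ r, ∑ c, (n * (1 + t * (FA r c - 1))) * α r c :=
      sum_congr rfl fun r _ => sum_congr rfl fun c _ => by rw [← sum_mul, hxA]
    have e2 : ∑ r, ∑ c, ∑ s, x r c s * β c s =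
        ∑ c, ∑ s, (n * (1 + t * (FB c s - 1))) * β c s := by
      rw [sum_comm]
      refine sum_congr rfl fun c _ => ?_
      rw [sum_comm]
      exact sum_congr rfl fun s _ => by rw [← sum_mul, hxB]
    have e3 : ∑ r, ∑ c, ∑ s, x r c s * γ s r =
        ∑ s, ∑ r, (n * (1 + t * (FC s r - 1))) * γ s r := by
      have e4 : ∀ r, ∑ c, ∑ s, x r c s * γ s r =
          ∑ s, (n * (1 + t * (FC s r - 1))) * γ s r := fun r => by
        rw [sum_comm]
        exact sum_congr rfl fun s _ => by rw [← sum_mul, hxC]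
      rw [sum_congr rfl fun r _ => e4 r, sum_comm]
    rw [e1, e2, e3]
    simp only [mul_add, mul_one, add_mul, sum_add_distrib]
  have e5 : (n : ℝ) * (∑ r, ∑ c, FA r c * α r c + ∑ c, ∑ s, FB c s * β c s +
      ∑ s, ∑ r, FC s r * γ s r) = ∑ r, ∑ c, ∑ s, x r c s * (α r c + β c s + γ s r) +
      n * (1 - t) * Dv FA FB FC α β γ := by
    rw [e0]
    unfold Dv
    have k : ∀ (G δ : Fin n → Fin n → ℝ), (n : ℝ) * ∑ i, ∑ j, G i j * δ i j =
        ∑ i, ∑ j, (n * (1 + t * (G i j - 1))) * δ i j +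
          n * (1 - t) * ∑ i, ∑ j, (G i j - 1) * δ i j := by
      intro G δ
      simp only [mul_sum, ← sum_add_distrib]
      exact sum_congr rfl fun i _ => sum_congr rfl fun j _ => by ring
    have k1 := k FA α
    have k2 := k FB β
    have k3 := k FC γ
    linear_combination k1 + k2 + k3
  have hn' : (0 : ℝ) < n := by exact_mod_cast hn
  have h1 : (n : ℝ) * (1 - t) * Dv FA FB FC α β γ < 0 :=
    mul_neg_of_pos_of_neg (mul_pos hn' (by linarith)) hD
  by_contra hcon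
  rw [not_lt] at hcon
  have := mul_nonneg hn'.le hcon
  linarith

theorem hFC2 : Pool.Agent.Helper49.TP.StFC2 := by
  intro hFUN hFSD hFLO hFHI n F Λ t ν K FA FB FC x α β γ hn hΛ hν hν1 hK hnum hFA hFB hFC lA lB lC
    hTr ht0 ht1 hx hxinv hs hD hinv
  classical
  have hn' : (0 : ℝ) < n := by exact_mod_cast hn
  have hΛ0 : 0 < Λ := by linarith
  haveI : Nonempty (Fin n) := ⟨⟨0, hn⟩⟩
  obtain ⟨hx0, hxA, hxB, hxC⟩ := id hx
  have hF1 : 1 ≤ F := by
    have r0 : Fin n := ⟨0, hn⟩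
    have h1 : (n : ℝ) ≤ n * F := by
      calc (n : ℝ) = ∑ c, FA r0 c := (lA.1 r0).symm
        _ ≤ ∑ _c : Fin n, F := sum_le_sum fun c _ => (hFA r0 c).2
        _ = n * F := by rw [sum_const, card_univ, Fintype.card_fin, nsmul_eq_mul]
    by_contra hcon
    rw [not_le] at hcon
    nlinarith
  have hF0 : 0 ≤ F := by linarith
  have hub : ∀ v, v ≤ F → (n : ℝ) * (1 + t * (v - 1)) ≤ n * F := by
    intro v hv
    refine mul_le_mul_of_nonneg_left ?_ hn'.le
    nlinarith
  -- the minima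
  obtain ⟨⟨r0, c0⟩, hα0⟩ := Finite.exists_min fun p : Fin n × Fin n => α p.1 p.2
  choose σ hσ using fun s : Fin n => Finite.exists_min fun c : Fin n => β c s
  choose ρ hρ using fun s : Fin n => Finite.exists_min fun r : Fin n => γ s r
  set a : Fin n → Fin n → ℝ := fun r c => α r c - α r0 c0 with ha
  set b : Fin n → Fin n → ℝ := fun c s => β c s - β (σ s) s with hb
  set c' : Fin n → Fin n → ℝ := fun s r => γ s r - γ s (ρ s) with hc'
  set m : Fin n → ℝ := fun s => -(α r0 c0 + β (σ s) s + γ s (ρ s)) with hm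
  have ha0 : ∀ r c, 0 ≤ a r c := fun r c => sub_nonneg.2 (hα0 (r, c))
  have hb0 : ∀ c s, 0 ≤ b c s := fun c s => sub_nonneg.2 (hσ s c)
  have hc0 : ∀ s r, 0 ≤ c' s r := fun s r => sub_nonneg.2 (hρ s r)
  have hw : ∀ r c s, x r c s ≠ Λ → m s ≤ a r c + b c s + c' s r := by
    intro r c s hne
    have h1 := (hs r c s).1 (lt_of_le_of_ne (hx0 r c s).2 hne)
    simp only [ha, hb, hc', hm]
    linarith
  set EA : ℝ := ∑ r, ∑ c, a r c * FA r c with hEA
  set EB : ℝ := ∑ c, ∑ s, b c s * FB c s with hEB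
  set EC : ℝ := ∑ s, ∑ r, c' s r * FC s r with hEC
  have hEA0 : 0 ≤ EA := sum_nonneg fun r _ => sum_nonneg fun c _ => mul_nonneg (ha0 r c) (hFA r c).1
  have hEB0 : 0 ≤ EB := sum_nonneg fun c _ => sum_nonneg fun s _ => mul_nonneg (hb0 c s) (hFB c s).1
  have hEC0 : 0 ≤ EC := sum_nonneg fun s _ => sum_nonneg fun r _ => mul_nonneg (hc0 s r) (hFC s r).1
  set M : ℝ := n * ∑ s, m s with hMdef
  have hEM : EA + EB + EC < M := by
    have h1 := step1 hn ht1 hx hs hD
    have h2 : ∑ r, ∑ c, FA r c * α r c = n * (∑ _s : Fin n, α r0 c0) + EA := by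
      have e1 : ∀ r, ∑ c, FA r c * α r c = n * α r0 c0 + ∑ c, a r c * FA r c := by
        intro r
        rw [← lA.1 r, sum_mul, ← sum_add_distrib]
        exact sum_congr rfl fun c _ => by simp only [ha]; ring
      rw [sum_congr rfl fun r _ => e1 r, sum_add_distrib, mul_sum]
    have h3 : ∑ c, ∑ s, FB c s * β c s = n * (∑ s, β (σ s) s) + EB := by
      rw [hEB, sum_comm, sum_comm (f := fun c s => b c s * FB c s), mul_sum, ← sum_add_distrib]
      refine sum_congr rfl fun s _ => ?_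
      rw [← lB.2 s, sum_mul, ← sum_add_distrib]
      exact sum_congr rfl fun c _ => by simp only [hb]; ring
    have h4 : ∑ s, ∑ r, FC s r * γ s r = n * (∑ s, γ s (ρ s)) + EC := by
      rw [hEC, mul_sum, ← sum_add_distrib]
      refine sum_congr rfl fun s _ => ?_
      rw [← lC.1 s, sum_mul, ← sum_add_distrib]
      exact sum_congr rfl fun r _ => by simp only [hc']; ring
    have h5 : M = -(n * (∑ _s : Fin n, α r0 c0) + n * (∑ s, β (σ s) s) +
        n * (∑ s, γ s (ρ s))) := by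
      rw [hMdef, ← mul_add, ← mul_add, ← sum_add_distrib, ← sum_add_distrib, ← mul_neg,
        ← sum_neg_distrib]
    rw [h2, h3, h4] at h1
    linarith
  have hM0 : 0 < M := by linarith
  set M1 : ℝ := n * ∑ s, max (m s) 0 with hM1def
  have hMM1 : M ≤ M1 := mul_le_mul_of_nonneg_left (sum_le_sum fun s _ => le_max_left _ _) hn'.le
  have hM10 : 0 < M1 := by linarith
  -- (2)
  have h2 : (2 - F - F ^ 2 / Λ) * M1 ≤ EA + EB := by
    have hconst : ∀ r, ∑ c, a r c * FA r c = ∑ c, a r0 c * FA r0 c := by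
      intro r
      obtain ⟨h, hh, hr⟩ := hTr.1 r0 r
      rw [← hr, ← Equiv.sum_comp h.2.1]
      refine sum_congr rfl fun c _ => ?_
      simp only [ha]
      rw [(hinv h hh).1, hh.1]
    have h3 := hFSD n F Λ (∑ c, a r0 c * FA r0 c) FA FB a b m ρ
      (fun s => univ.filter fun c => x (ρ s) c s = Λ) hΛ0 hF0 hFA hFB lA.1 lB.2 ha0 hb0 hconst
      (fun s => cardbad (fun c => x (ρ s) c s) Λ _ hΛ0 (fun c => (hx0 _ _ _).1)
        ((hxC s (ρ s)).trans_le (hub _ (hFC s (ρ s)).2)))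
      (fun s c hc => by
        have h4 : x (ρ s) c s ≠ Λ := fun h => hc (mem_filter.2 ⟨mem_univ _, h⟩)
        have h5 := hw (ρ s) c s h4
        have h6 : c' s (ρ s) = 0 := by simp only [hc']; ring
        linarith)
    have h7 : EA = n * ∑ c, a r0 c * FA r0 c := by
      rw [hEA, sum_congr rfl fun r _ => hconst r, sum_const, card_univ, Fintype.card_fin,
        nsmul_eq_mul]
    rw [h7, hM1def]
    linarith
  -- (3)
  have h3 : (2 - F - F ^ 2 / Λ) * M1 ≤ EA + EC := by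
    have hconst : ∀ c, ∑ r, a r c * FA r c = ∑ r, a r c0 * FA r c0 := by
      intro c
      obtain ⟨h, hh, hr⟩ := hTr.2 c0 c
      rw [← hr, ← Equiv.sum_comp h.1]
      refine sum_congr rfl fun r _ => ?_
      simp only [ha]
      rw [(hinv h hh).1, hh.1]
    have h3 := hFSD n F Λ (∑ r, a r c0 * FA r c0) (fun c r => FA r c) (fun r s => FC s r)
      (fun c r => a r c) (fun r s => c' s r) m σ
      (fun s => univ.filter fun r => x r (σ s) s = Λ) hΛ0 hF0 (fun c r => hFA r c)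
      (fun r s => hFC s r) lA.2 lC.1 (fun c r => ha0 r c) (fun r s => hc0 s r) hconst
      (fun s => cardbad (fun r => x r (σ s) s) Λ _ hΛ0 (fun c => (hx0 _ _ _).1)
        ((hxB (σ s) s).trans_le (hub _ (hFB (σ s) s).2)))
      (fun s r hr => by
        have h4 : x r (σ s) s ≠ Λ := fun h => hr (mem_filter.2 ⟨mem_univ _, h⟩)
        have h5 := hw r (σ s) s h4
        have h6 : b (σ s) s = 0 := by simp only [hb]; ring
        linarith)
    have h7 : EA = n * ∑ r, a r c0 * FA r c0 := by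
      rw [hEA, sum_comm, sum_congr rfl fun c _ => hconst c, sum_const, card_univ,
        Fintype.card_fin, nsmul_eq_mul]
    have h8 : EC = ∑ r, ∑ s, c' s r * FC s r := by rw [hEC, sum_comm]
    rw [h7, h8, hM1def]
    linarith
  -- (4)
  set L : ℝ := K * M / (n : ℝ) ^ 2 with hL
  have hL0 : 0 ≤ L := by positivity
  set T : Finset (Fin n) := univ.filter fun s => m s ≤ L with hT
  haveI : Fintype (grp FA FB FC) := Fintype.ofFinite _
  have h4 := hFLO hFUN (grp FA FB FC) n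
    ((MonoidHom.fst _ _).comp (grp FA FB FC).subtype)
    ((MonoidHom.fst _ _).comp ((MonoidHom.snd _ _).comp (grp FA FB FC).subtype))
    F Λ L FB FC b c' m r0 c0
    (fun g => univ.filter fun s => x (g.1.1 r0) (g.1.2.1 c0) s = Λ) T hn
    (fun r r' => by
      obtain ⟨h, hh, hr⟩ := hTr.1 r r'
      exact ⟨⟨h, hh⟩, hr⟩)
    (fun c d => by
      obtain ⟨h, hh, hr⟩ := hTr.2 c d
      exact ⟨⟨h, hh⟩, hr⟩)
    hΛ0 hF0 hL0 hFB hFC lB.2 lC.1 hb0 hc0
    (fun g => cardbad (fun s => x (g.1.1 r0) (g.1.2.1 c0) s) Λ _ hΛ0 (fun c => (hx0 _ _ _).1)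
        ((hxA _ _).trans_le (hub _ (hFA _ _).2)))
    (fun g s hgs => by
      have h5 : x (g.1.1 r0) (g.1.2.1 c0) s ≠ Λ := fun h => hgs (mem_filter.2 ⟨mem_univ _, h⟩)
      have h6 := hw _ _ _ h5
      have h7 : a (g.1.1 r0) (g.1.2.1 c0) = 0 := by
        simp only [ha]
        rw [(hinv g.1 g.2).1]
        ring
      rw [h7, zero_add] at h6
      exact h6)
    (fun s hs => (mem_filter.1 hs).2)
  -- (5)
  set Y : ℝ := 2 - F - F ^ 2 / Λ - F / (ν * K) with hY
  have hY1 : Y ≤ 1 := by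
    have h5 : 0 ≤ F ^ 2 / Λ := by positivity
    have h6 : 0 ≤ F / (ν * K) := by positivity
    rw [hY]
    linarith
  have h5 : ∀ s, s ∉ T → n * m s * (Y - ν) ≤
      ∑ c, b c s * FB c s + ∑ r, c' s r * FC s r := by
    intro s hsT
    have hms : L < m s := by
      rw [hT, mem_filter, not_and, not_le] at hsT
      exact hsT (mem_univ s)
    have hms0 : 0 < m s := hL0.trans_lt hms
    have hcard : (((univ.filter fun p : Fin n × Fin n => x p.1 p.2 s = Λ).card : ℕ) : ℝ) ≤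
        (n : ℝ) ^ 2 / Λ := by
      refine cardbad (fun p : Fin n × Fin n => x p.1 p.2 s) Λ _ hΛ0 (fun p => (hx0 _ _ _).1) ?_
      rw [Fintype.sum_prod_type]
      refine le_of_eq ?_
      rw [sum_congr rfl fun r _ => hxC s r]
      rw [← mul_sum, sum_add_distrib, ← mul_sum, sum_sub_distrib, lC.1 s, sum_const, card_univ,
        Fintype.card_fin, nsmul_eq_mul]
      ring
    have h6 := hFHI n F Λ ν M (m s) FA a (fun c => FB c s) (fun r => FC s r) (fun c => b c s)
      (fun r => c' s r) (univ.filter fun p : Fin n × Fin n => x p.1 p.2 s = Λ) hΛ0 hF0 hν hν1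
      hms0 hFA (fun c => hFB c s) (fun r => hFC s r) lA (lB.2 s) (lC.1 s) ha0 (fun c => hb0 c s)
      (fun r => hc0 s r) hcard
      (fun r c hrc => hw r c s fun h => hrc (mem_filter.2 ⟨mem_univ _, h⟩)) (by linarith)
    have h7 : F * M / (ν * m s) ≤ F * (n : ℝ) ^ 2 / (ν * K) := by
      rw [div_le_div_iff₀ (by positivity) (by positivity)]
      have h8 : K * M ≤ m s * (n : ℝ) ^ 2 := by
        rw [hL, div_lt_iff₀ (by positivity)] at hms
        exact hms.le
      calc F * M * (ν * K) = (F * ν) * (K * M) := by ring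
        _ ≤ (F * ν) * (m s * (n : ℝ) ^ 2) := mul_le_mul_of_nonneg_left h8 (by positivity)
        _ = _ := by ring
    have h9 : (n : ℝ) ^ 2 * Y ≤
        (n : ℝ) ^ 2 * (2 - F) - F ^ 2 * (n : ℝ) ^ 2 / Λ - F * M / (ν * m s) := by
      have e : (n : ℝ) ^ 2 * Y = (n : ℝ) ^ 2 * (2 - F) - F ^ 2 * (n : ℝ) ^ 2 / Λ -
          F * (n : ℝ) ^ 2 / (ν * K) := by
        rw [hY]
        ring
      rw [e]
      linarith
    have h10 : (1 - ν) * m s * ((n : ℝ) ^ 2 * Y) ≤
        n * (∑ c, b c s * FB c s + ∑ r, c' s r * FC s r) :=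
      (mul_le_mul_of_nonneg_left h9 (mul_nonneg (by linarith) hms0.le)).trans h6
    have h11 : m s * (n : ℝ) ^ 2 * (Y - ν) ≤ (1 - ν) * m s * ((n : ℝ) ^ 2 * Y) := by
      have h12 : Y - ν ≤ (1 - ν) * Y := by nlinarith
      calc m s * (n : ℝ) ^ 2 * (Y - ν) ≤ m s * (n : ℝ) ^ 2 * ((1 - ν) * Y) :=
            mul_le_mul_of_nonneg_left h12 (by positivity)
        _ = _ := by ring
    have h13 : n * (n * m s * (Y - ν)) ≤
        n * (∑ c, b c s * FB c s + ∑ r, c' s r * FC s r) := by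
      calc n * (n * m s * (Y - ν)) = m s * (n : ℝ) ^ 2 * (Y - ν) := by ring
        _ ≤ _ := h11.trans h10
    exact le_of_mul_le_mul_left h13 hn'
  -- (6)
  set MT : ℝ := n * ∑ s ∈ T, max (m s) 0 with hMT
  set MN : ℝ := n * ∑ s ∈ univ.filter (fun s => ¬ m s ≤ L), m s with hMN
  have hsplit : M1 = MT + MN := by
    rw [hM1def, hMT, hMN, hT, ← mul_add, ← sum_filter_add_sum_filter_not univ (fun s => m s ≤ L)]
    congr 2
    refine sum_congr rfl fun s hs => ?_
    have := (mem_filter.1 hs).2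
    exact max_eq_left (by linarith)
  have hMT0 : 0 ≤ MT := mul_nonneg hn'.le (sum_nonneg fun s _ => le_max_right _ _)
  have hMN0 : 0 ≤ MN := mul_nonneg hn'.le (sum_nonneg fun s hs => by
    have := (mem_filter.1 hs).2
    linarith)
  have hEBC : EB + EC = ∑ s, (∑ c, b c s * FB c s + ∑ r, c' s r * FC s r) := by
    rw [sum_add_distrib, hEB, hEC, sum_comm]
  have h6 : MN * (Y - ν) ≤ ∑ s ∈ univ.filter (fun s => ¬ m s ≤ L),
      (∑ c, b c s * FB c s + ∑ r, c' s r * FC s r) := by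
    rw [hMN, mul_sum, sum_mul]
    refine sum_le_sum fun s hs => h5 s fun hsT => ?_
    exact (mem_filter.1 hs).2 (mem_filter.1 hsT).2
  have h7 : (n : ℝ) ^ 2 * F ^ 2 * L / Λ = K * F ^ 2 / Λ * M := by
    rw [hL]
    field_simp
  have h8 : (n : ℝ) * (2 - F) * ∑ s ∈ T, max (m s) 0 = (2 - F) * MT := by
    rw [hMT]
    ring
  rw [h7, h8] at h4
  have h9 : (2 - F) * MT - K * F ^ 2 / Λ * M + MN * (Y - ν) ≤ EB + EC := by
    rw [hEBC, ← sum_filter_add_sum_filter_not univ (fun s => m s ≤ L)]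
    linarith
  have hp1 : 0 ≤ K * F ^ 2 / Λ := by positivity
  have hp2 : 0 ≤ ν + F ^ 2 / Λ + F / (ν * K) := by positivity
  have hp3 : K * F ^ 2 / Λ * M ≤ K * F ^ 2 / Λ * M1 := mul_le_mul_of_nonneg_left hMM1 hp1
  have hp4 : (ν + F ^ 2 / Λ + F / (ν * K)) * MN ≤ (ν + F ^ 2 / Λ + F / (ν * K)) * M1 :=
    mul_le_mul_of_nonneg_left (by linarith) hp2
  have h10 : (2 - F) * M1 - K * F ^ 2 / Λ * M1 - (ν + F ^ 2 / Λ + F / (ν * K)) * M1 ≤
      EB + EC := by
    have e1 : MN * (Y - ν) = (2 - F) * MN - (ν + F ^ 2 / Λ + F / (ν * K)) * MN := by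
      rw [hY]
      ring
    have e2 : (2 - F) * M1 = (2 - F) * MT + (2 - F) * MN := by rw [hsplit]; ring
    linarith
  have h11 : ((K + 3) * F ^ 2 / Λ + ν + F / (ν * K)) * M1 ≤ (4 - 3 * F) * M1 :=
    mul_le_mul_of_nonneg_right hnum hM10.le
  have e3 : (K + 3) * F ^ 2 / Λ = K * F ^ 2 / Λ + 3 * (F ^ 2 / Λ) := by ring
  rw [e3] at h11
  nlinarith

end Pool.Agent.Helper7.TP
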